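import Mathlib
import Pool.Agent.Helper20.ZeroFree

set_option autoImplicit false

namespace Pool.Agent.Results.MP_e23efd_co.ConstantExtremal

/-- A multiset `S` over a commutative semiring is `m`-zero free if `e_m(T) ≠ 0` for every
sub-multiset `T` of `S` with at least `m` elements (counted with multiplicity). Here
`Multiset.esymm T m` is the `m`-th elementary symmetric function of the elements of `T`. -/
def IsZeroFree {R : Type*} [CommSemiring R] (m : ℕ) (S : Multiset R) : Prop :=
  ∀ T ≤ S, m ≤ Multiset.card T → T.esymm m ≠ 0

/-- Every `m`-zero free sequence of length `m q - 1` over `ZMod q`, where `q = p ^ r` and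
`m = p ^ s`, consists of `m q - 1` copies of one generator of the additive group. -/
theorem result (p : ℕ) (hp : p.Prime) (r s : ℕ) (hr : 1 ≤ r) (S : Multiset (ZMod (p ^ r)))
    (hS : IsZeroFree (p ^ s) S) (hcard : Multiset.card S = p ^ s * p ^ r - 1) :
    ∃ a : ZMod (p ^ r), AddSubgroup.zmultiples a = ⊤ ∧
      S = Multiset.replicate (p ^ s * p ^ r - 1) a :=
  Pool.Agent.Helper20.ZeroFree.main p hp r s hr S hS hcard

end Pool.Agent.Results.MP_e23efd_co.ConstantExtremal
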